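import Pool.Agent.T9h37.MC.Conj
import Pool.Agent.T9h37.MC.Single

/-!
# Murre's conjecture (C) for a single variety with nilpotent homologically trivial correspondences
-/

open CategoryTheory AlgebraicGeometry

set_option autoImplicit false

universe u v w

namespace Pool.Agent.T9h64.MC

open Pool.Agent.H914 Pool.Agent.H914.VarClass Pool.Agent.H914.VarClass.Obj Pool.Agent.W492.BB
  Pool.Agent.W550.Corr Pool.Agent.TH133 Pool.Agent.Y110 Pool.Agent.TH829.Kim Pool.Agent.T9h37.MC

set_option linter.unusedSectionVars false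

section Defs

variable {k : Type u} [Field k] {𝒱 : VarClass k} {C : TheoryData.{u, v, 0} 𝒱 ℚ}
  {K : Type w} [Field K] (H : WeilTheoryData.{u, v, w} C K)

/-- The `n`-th power of a self-correspondence under composition. -/
noncomputable def compPow (C : TheoryData.{u, v, 0} 𝒱 ℚ) {X : 𝒱.Obj} (Γ : C.A (X.prod X)) :
    ℕ → C.A (X.prod X)
  | 0 => dg C X
  | n + 1 => C.comp Γ (compPow C Γ n)

/-- Homologically trivial self-correspondences of degree zero of `X` are nilpotent. -/
def NilpotentHom (X : 𝒱.Obj) : Prop :=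
  ∀ Γ : C.A (X.prod X), C.Deg X.dim Γ → H.cl Γ = 0 → ∃ n : ℕ, compPow C Γ n = 0

/-- All self-correspondences of degree zero preserve the filtrations of `π`. -/
def Preserves (C : TheoryData.{u, v, 0} 𝒱 ℚ) {X : 𝒱.Obj} (π : ℕ → C.A (X.prod X)) : Prop :=
  ∀ Γ : C.A (X.prod X), C.Deg X.dim Γ → ∀ (i n : ℕ), ∀ x ∈ ckFil C π i n,
    C.act Γ x ∈ ckFil C π i n

/-- `π_b Γ π_a` acts as zero on the Chow groups of `X` for all `a < b` and all self-correspondences
`Γ` of degree zero. -/
def NoRaising (C : TheoryData.{u, v, 0} 𝒱 ℚ) {X : 𝒱.Obj} (π : ℕ → C.A (X.prod X)) : Prop :=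
  ∀ Γ : C.A (X.prod X), C.Deg X.dim Γ → ∀ a b : ℕ, a < b → ∀ (i : ℕ) (x : C.A X),
    C.Deg i x → C.act (π b) (C.act Γ (C.act (π a) x)) = 0

/-- The same for homologically trivial `Γ` and `a ≤ 2i`. -/
def NoRaisingHom {X : 𝒱.Obj} (π : ℕ → C.A (X.prod X)) : Prop :=
  ∀ Γ : C.A (X.prod X), C.Deg X.dim Γ → H.cl Γ = 0 → ∀ (i a b : ℕ), a < b → a ≤ 2 * i →
    ∀ x : C.A X, C.Deg i x → C.act (π b) (C.act Γ (C.act (π a) x)) = 0

end Defs

variable {k : Type u} [Field k] {𝒱 : VarClass k} {C : TheoryData.{u, v, 0} 𝒱 ℚ}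
  [hC : IsChowProj C] {K : Type w} [Field K]
  {H : WeilTheoryData.{u, v, w} C K} [hH : IsWeilProj H] {X Y Z W : 𝒱.Obj}

include hC hH

lemma compPow_eq (Γ : Cor C X) (n : ℕ) : compPow C (X := X) Γ n = (Γ ^ n : Cor C X) := by
  induction n with
  | zero => rfl
  | succ n ih =>
    rw [pow_succ]
    show C.comp Γ (compPow C (X := X) Γ n) = _
    rw [ih]
    rfl

lemma nil_R0 (h : NilpotentHom H X) (x : R0 C X) (hx : H.cl (toA x) = 0) : IsNilpotent x := by
  obtain ⟨n, hn⟩ := h (toA x) (toA_mem x) hx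
  refine ⟨n, ?_⟩
  have h1 : compPow C (X := X) (x : Cor C X) n = (0 : Cor C X) := hn
  rw [compPow_eq (H := H)] at h1
  exact Subtype.ext h1

lemma nilpotentHom_of_R0 (h : ∀ x : R0 C X, H.cl (toA x) = 0 → IsNilpotent x) :
    NilpotentHom H X := by
  intro Γ hΓ hcl
  obtain ⟨n, hn⟩ := h ⟨Γ, hΓ⟩ hcl
  refine ⟨n, ?_⟩
  have h1 := congrArg Subtype.val hn
  obtain ⟨γ, hγ⟩ : ∃ γ : Cor C X, γ = Γ := ⟨Γ, rfl⟩
  have h2 : compPow C (X := X) γ n = (γ ^ n : Cor C X) := compPow_eq (H := H) _ _
  rw [← hγ, h2, hγ]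
  exact h1

lemma nilpotentHom_of_kimura (h : IsKimuraFinite C (ratFam C) X) : NilpotentHom H X :=
  nilpotentHom_of_R0 fun _ hx => isNilpotent_of_kimura (H := H) h hx

/-- The matrix entries of a self-correspondence above the diagonal are homologically trivial. -/
lemma cl_entry {P : ℕ → Cor C X} (hP : IsCK H X P) {a b : ℕ} (hab : a ≠ b) {γ : Cor C X}
    (hγ : γ ∈ cor0 C X) : H.cl ((P b * γ * P a : Cor C X) : C.A (X.prod X)) = 0 := by
  apply hom_zero_of_act
  intro v
  have h0 : actH C X H (P b * γ * P a) = 0 := by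
    apply ext_gr H
    intro m v hv
    rw [map_mul, map_mul, Module.End.mul_apply, Module.End.mul_apply, hP.actH_eq' a m hv]
    split_ifs with h1
    · rw [hP.actH_eq' b m (actH_mem0 hγ hv), if_neg (by omega)]
      rfl
    · rw [map_zero, map_zero]
      rfl
  have h1 : actH C X H (P b * γ * P a) v = 0 := by rw [h0]; rfl
  exact h1

/-- **Criterion.** -/
theorem murreC_of_noRaisingHom (hN : NilpotentHom H X) {P : ℕ → Cor C X} (hP : IsCK H X P)
    (hT : NoRaisingHom H (X := X) P) : MurreC H X := by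
  have hm : ∀ i, P i ∈ cor0 C X := hP.deg
  -- all entries above the diagonal act as zero
  have hT' : ∀ γ ∈ cor0 C X, ∀ i a b : ℕ, a < b → a ≤ 2 * i → ∀ x ∈ C.gr X i,
      actC C X (P b) (actC C X γ (actC C X (P a) x)) = 0 := by
    intro γ hγ i a b hab hai x hx
    have h1 := hT (P b * γ * P a : Cor C X)
      ((cor0 C X).mul_mem ((cor0 C X).mul_mem (hm b) hγ) (hm a))
      (cl_entry hP (by omega) hγ) i a b hab hai x hx
    have h2 : actC C X (P b) (actC C X (P b * γ * P a) (actC C X (P a) x)) = 0 := h1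
    rw [← actC_mul (H := H), ← actC_mul (H := H)] at h2
    have h3 : P b * (P b * γ * P a) * P a = P b * γ * P a := by
      have hbb : P b * P b = P b := by rw [hP.mul_eq, if_pos rfl]
      have haa : P a * P a = P a := by rw [hP.mul_eq, if_pos rfl]
      calc P b * (P b * γ * P a) * P a = (P b * P b) * γ * (P a * P a) := by simp only [mul_assoc]
        _ = _ := by rw [hbb, haa]
    rw [h3] at h2
    rw [← actC_mul (H := H), ← actC_mul (H := H)]
    exact h2
  have hdec : ∀ x : C.A X, x = ∑ l ∈ Finset.range (2 * X.dim + 1), actC C X (P l) x := by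
    intro x
    have h2 : actC C X (∑ l ∈ Finset.range (2 * X.dim + 1), P l) x = x := by
      rw [hP.sum_eq, map_one]
      rfl
    rw [map_sum, LinearMap.sum_apply] at h2
    exact h2.symm
  have hpres : ∀ γ ∈ cor0 C X, ∀ i m : ℕ, m ≤ 2 * i + 1 → ∀ x ∈ C.gr X i,
      (∀ j, m ≤ j → actC C X (P j) x = 0) → ∀ j, m ≤ j → actC C X (P j) (actC C X γ x) = 0 := by
    intro γ hγ i m hmi x hx h j hj
    conv_lhs => rw [hdec x]
    rw [map_sum, map_sum]
    apply Finset.sum_eq_zero
    intro l _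
    by_cases hl : m ≤ l
    · rw [h l hl, map_zero, map_zero]
    · exact hT' γ hγ i l j (by omega) (by omega) x hx
  have key : ∀ Q : ℕ → Cor C X, IsCK H X Q → ∀ i n : ℕ,
      ckFil C (X := X) Q i n = ckFil C (X := X) P i n := by
    intro Q hQ i n
    obtain ⟨s, t, hs, ht, hst, hts, -, hc⟩ := conj_of_nil (H := H) (nil_R0 hN) hP hQ
    ext x
    rw [mem_fil (H := H) hQ, mem_fil (H := H) hP]
    constructor
    · rintro ⟨hx, h⟩
      refine ⟨hx, ?_⟩
      have h1 : ∀ j, 2 * i + 1 - n ≤ j → actC C X (P j) (actC C X t x) = 0 := by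
        intro j hj
        have h2 := h j hj
        rw [hc j] at h2
        have h3 : actC C X t (actC C X (s * P j * t) x) = 0 := by rw [h2, map_zero]
        rw [← actC_mul (H := H)] at h3
        have h4 : t * (s * P j * t) = P j * t := by
          calc t * (s * P j * t) = (t * s) * P j * t := by simp only [mul_assoc]
            _ = _ := by rw [hts, one_mul]
        rw [h4, actC_mul (H := H)] at h3
        exact h3
      have h5 := hpres s hs i (2 * i + 1 - n) (by omega) (actC C X t x)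
        (actC_mem (H := H) ht hx) h1
      intro j hj
      have h6 := h5 j hj
      rw [← actC_mul (H := H) s t, hst, map_one] at h6
      exact h6
    · rintro ⟨hx, h⟩
      refine ⟨hx, fun j hj => ?_⟩
      have h5 := hpres t ht i (2 * i + 1 - n) (by omega) x hx h j hj
      rw [hc j, actC_mul (H := H), actC_mul (H := H), h5, map_zero]
  intro π π' hπ hπ' i n
  rw [key π hπ, key π' hπ']

theorem tfae_single (hN : NilpotentHom H X) {π : ℕ → C.A (X.prod X)} (hπ : IsCK H X π) :
    List.TFAE [MurreC H X, Preserves C π, NoRaising C π, NoRaisingHom H π] := by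
  tfae_have 1 → 2 := fun h Γ hΓ i n x hx => stable_self h (P := π) hπ hΓ hx
  tfae_have 1 → 3 := by
    intro h Γ hΓ a b hab i x hx
    have h1 := raise_zero h (P := π) hπ hab hΓ hx
    rw [actC_mul (H := H), actC_mul (H := H)] at h1
    exact h1
  tfae_have 3 → 4 := fun h Γ hΓ _ i a b hab _ x hx => h Γ hΓ a b hab i x hx
  tfae_have 2 → 4 := by
    intro h Γ hΓ _ i a b hab hai x hx
    have h1 : C.act (π a) x ∈ ckFil C π i (2 * i - a) := by
      rw [hπ.mem_ckFil]
      refine ⟨act_mem0 C (hπ.deg a) hx, fun j hj => ?_⟩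
      rw [← C.act_comp, hπ.orth a j (by omega), TheoryData.act_zero]
    have h2 := h Γ hΓ i (2 * i - a) _ h1
    rw [hπ.mem_ckFil] at h2
    exact h2.2 b (by omega)
  tfae_have 4 → 1 := fun h => murreC_of_noRaisingHom hN (P := π) hπ h
  tfae_finish

/-- One codimension and one decomposition of `X × X` suffice. -/
theorem murreC_of_codim (hN : NilpotentHom H X) {π : ℕ → C.A (X.prod X)} (hπ : IsCK H X π)
    (hB : ∀ γ : C.A (X.prod X), C.Deg X.dim γ → ∀ m : ℕ, 2 * X.dim < m →
      C.act (prodCK C (dualCK C π) π m) γ = 0) : MurreC H X := by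
  apply murreC_of_noRaisingHom hN (P := π) hπ
  intro Γ hΓ _ i a b hab _ x hx
  have h1 : C.comp (C.comp (π a) Γ) (π b) = 0 := by
    by_cases ha : a ≤ 2 * X.dim
    · exact comp_zero_of_prod (H := H) hπ hπ ha (hB Γ hΓ (2 * X.dim - a + b) (by omega))
    · rw [hπ.out a (by omega), zero_comp, zero_comp]
  have h2 : C.act (C.comp (C.comp (π a) Γ) (π b)) x = 0 := by
    rw [h1, TheoryData.act_zero]
  rw [C.act_comp, C.act_comp] at h2
  exact h2

end Pool.Agent.T9h64.MC
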