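import Pool.Agent.T9h64.MC.Crit

/-!
# Murre's conjecture (C) passes to direct summands of finite-dimensional motives
-/

open CategoryTheory AlgebraicGeometry

set_option autoImplicit false

universe u v w

namespace Pool.Agent.T9h64.MC

open Pool.Agent.H914 Pool.Agent.H914.VarClass Pool.Agent.H914.VarClass.Obj Pool.Agent.W492.BB
  Pool.Agent.W550.Corr Pool.Agent.TH133 Pool.Agent.Y110 Pool.Agent.TH829.Kim Pool.Agent.T9h37.MC

set_option linter.unusedSectionVars false

section Defs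

variable {k : Type u} [Field k] {𝒱 : VarClass k}

/-- The motive of `Y` is a direct summand of the motive of `X` twisted by `r`: there are
correspondences `α` from `Y` to `X` of degree `r` and `β` from `X` to `Y` of degree `- r` with
`β ∘ α` the identity. -/
def IsSummand (C : TheoryData.{u, v, 0} 𝒱 ℚ) (Y X : 𝒱.Obj) (r : ℤ) : Prop :=
  ∃ (α : C.A (Y.prod X)) (β : C.A (X.prod Y)), C.Deg (Y.dim + r) α ∧ C.Deg (X.dim - r) β ∧
    C.comp α β = dg C Y

/-- `Y` is dominated by `X`: there are a morphism `f : X ⟶ Y` and a class `ξ` on `X` with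
`f_* ξ = 1`. -/
def IsDominated (C : TheoryData.{u, v, 0} 𝒱 ℚ) (Y X : 𝒱.Obj) : Prop :=
  ∃ (f : X ⟶ Y) (ξ : C.A X), C.Deg ((X.dim : ℤ) - Y.dim) ξ ∧ C.down f ξ = 1

end Defs

variable {k : Type u} [Field k] {𝒱 : VarClass k} {C : TheoryData.{u, v, 0} 𝒱 ℚ}
  [hC : IsChowProj C] {K : Type w} [Field K]
  {H : WeilTheoryData.{u, v, w} C K} [hH : IsWeilProj H] {X Y Z W : 𝒱.Obj}

include hC hH

/-! ### Nilpotence -/

lemma compPow_sandwich {α : C.A (Y.prod X)} {β : C.A (X.prod Y)} (hαβ : C.comp α β = dg C Y)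
    (n : C.A (Y.prod Y)) (k : ℕ) :
    compPow C (C.comp (C.comp β n) α) (k + 1) = C.comp (C.comp β (compPow C n (k + 1))) α := by
  induction k with
  | zero =>
    show C.comp (C.comp (C.comp β n) α) (dg C X) = C.comp (C.comp β (C.comp n (dg C Y))) α
    rw [comp_dg, comp_dg]
  | succ k ih =>
    show C.comp (C.comp (C.comp β n) α) (compPow C (C.comp (C.comp β n) α) (k + 1)) =
      C.comp (C.comp β (C.comp n (compPow C n (k + 1)))) α
    rw [ih]
    have h1 : C.comp (C.comp (C.comp β n) α) (C.comp (C.comp β (compPow C n (k + 1))) α) =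
        C.comp (C.comp (C.comp β n) (C.comp (C.comp α β) (compPow C n (k + 1)))) α := by
      simp only [comp_assoc]
    rw [h1, hαβ, dg_comp]
    simp only [comp_assoc]

lemma nilpotentHom_summand {r : ℤ} {α : C.A (Y.prod X)} {β : C.A (X.prod Y)}
    (hα : C.Deg (Y.dim + r) α) (hβ : C.Deg (X.dim - r) β) (hαβ : C.comp α β = dg C Y)
    (hN : NilpotentHom H X) : NilpotentHom H Y := by
  intro n hn hcl
  have hβ' : β ∈ C.gr (X.prod Y) (X.dim + (-r)) := by rw [← sub_eq_add_neg]; exact hβ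
  have hn' : n ∈ C.gr (Y.prod Y) (Y.dim + 0) := by rw [add_zero]; exact hn
  have h1 : C.comp (C.comp β n) α ∈ C.gr (X.prod X) X.dim := by
    have h2 := comp_mem C (comp_mem C hβ' hn') hα
    have e1 : (X.dim : ℤ) + (-r + 0 + r) = X.dim := by ring
    rwa [e1] at h2
  have h2 : H.cl (C.comp (C.comp β n) α) = 0 := by
    apply hom_zero_of_act
    intro a
    have h3 : ∀ b : H.A Y, H.act (H.cl n) b = 0 := fun b => by
      rw [hcl]
      exact TheoryData.act_zero (T := H.toTheoryData) b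
    have h4 := actH_comp H (X := X) (Y := Y) (Z := X) (C.comp β n) α a
    have h5 := actH_comp H (X := X) (Y := Y) (Z := Y) β n a
    rw [h4, h5, h3]
    exact TheoryData.act_map_zero (T := H.toTheoryData) _
  obtain ⟨m, hm⟩ := hN _ h1 h2
  refine ⟨m + 1, ?_⟩
  have h3 : compPow C (C.comp (C.comp β n) α) (m + 1) = 0 := by
    show C.comp _ (compPow C (C.comp (C.comp β n) α) m) = 0
    rw [hm, comp_zero]
  rw [compPow_sandwich (H := H) hαβ] at h3
  have h4 : compPow C n (m + 1) =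
      C.comp (C.comp α (C.comp (C.comp β (compPow C n (m + 1))) α)) β := by
    have h5 : C.comp (C.comp α (C.comp (C.comp β (compPow C n (m + 1))) α)) β =
        C.comp (C.comp (C.comp α β) (compPow C n (m + 1))) (C.comp α β) := by
      simp only [comp_assoc]
    rw [h5, hαβ, dg_comp, comp_dg]
  rw [h4, h3, comp_zero, zero_comp]

/-! ### Shifted decompositions -/

/-- The decomposition indexed by all integers. -/
noncomputable def shf (C : TheoryData.{u, v, 0} 𝒱 ℚ) {X : 𝒱.Obj} (π : ℕ → C.A (X.prod X))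
    (m : ℤ) : C.A (X.prod X) := if 0 ≤ m then π m.toNat else 0

lemma shf_nat (π : ℕ → C.A (X.prod X)) (n : ℕ) : shf C π n = π n := by
  unfold shf
  rw [if_pos (by omega), Int.toNat_natCast]

lemma shf_neg (π : ℕ → C.A (X.prod X)) {m : ℤ} (hm : m < 0) : shf C π m = 0 := by
  unfold shf
  rw [if_neg (by omega)]

lemma shf_comp {π : ℕ → C.A (X.prod X)} (hπ : IsCK H X π) (m m' : ℤ) :
    C.comp (shf C π m) (shf C π m') = if m = m' then shf C π m else 0 := by
  by_cases h1 : m < 0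
  · rw [shf_neg (H := H) π h1, zero_comp, ite_self]
  by_cases h2 : m' < 0
  · rw [shf_neg (H := H) π h2, comp_zero, if_neg (by omega)]
  obtain ⟨a, rfl⟩ := Int.eq_ofNat_of_zero_le (not_lt.1 h1)
  obtain ⟨b, rfl⟩ := Int.eq_ofNat_of_zero_le (not_lt.1 h2)
  rw [shf_nat (H := H), shf_nat (H := H), hπ.comp_eq]
  by_cases h : a = b
  · rw [if_pos h, if_pos (by exact_mod_cast h)]
  · rw [if_neg h, if_neg (by exact_mod_cast h)]

lemma shf_mem {π : ℕ → C.A (X.prod X)} (hπ : IsCK H X π) (m : ℤ) :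
    shf C π m ∈ C.gr (X.prod X) X.dim := by
  unfold shf
  split_ifs
  · exact hπ.deg _
  · exact Submodule.zero_mem _

lemma shf_act {π : ℕ → C.A (X.prod X)} (hπ : IsCK H X π) (m m' : ℤ) {a : H.A X}
    (ha : a ∈ H.gr X m') : H.act (H.cl (shf C π m)) a = if m' = m then a else 0 := by
  by_cases h1 : m < 0
  · rw [shf_neg (H := H) π h1, map_zero]
    have h2 : H.act (0 : H.A (X.prod X)) a = 0 := TheoryData.act_zero (T := H.toTheoryData) a
    rw [h2]
    split_ifs with h3
    · rw [H.gr_neg X m' (by omega), Submodule.mem_bot] at ha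
      exact ha.symm
    · rfl
  obtain ⟨n, rfl⟩ := Int.eq_ofNat_of_zero_le (not_lt.1 h1)
  rw [shf_nat (H := H)]
  exact hπ.actH_eq n m' ha

/-! ### Graded inclusions and projections -/

lemma actH_sum {ι : Type*} (s : Finset ι) (Γ : ι → C.A (X.prod Y)) (a : H.A X) :
    H.act (H.cl (∑ i ∈ s, Γ i)) a = ∑ i ∈ s, H.act (H.cl (Γ i)) a := by
  rw [map_sum]
  exact act_sum H.toTheoryData s _ a

section graded

variable {Q : ℕ → C.A (Y.prod Y)} {π : ℕ → C.A (X.prod X)} (r : ℤ) (α : C.A (Y.prod X))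
  (β : C.A (X.prod Y))

/-- the graded inclusion -/
noncomputable def gu (C : TheoryData.{u, v, 0} 𝒱 ℚ) {X Y : 𝒱.Obj} (Q : ℕ → C.A (Y.prod Y))
    (π : ℕ → C.A (X.prod X)) (r : ℤ) (α : C.A (Y.prod X)) : C.A (Y.prod X) :=
  ∑ j ∈ Finset.range (2 * Y.dim + 1), C.comp (C.comp (Q j) α) (shf C π (j + 2 * r))

/-- the graded projection -/
noncomputable def gv (C : TheoryData.{u, v, 0} 𝒱 ℚ) {X Y : 𝒱.Obj} (Q : ℕ → C.A (Y.prod Y))
    (π : ℕ → C.A (X.prod X)) (r : ℤ) (β : C.A (X.prod Y)) : C.A (X.prod Y) :=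
  ∑ j ∈ Finset.range (2 * Y.dim + 1), C.comp (C.comp (shf C π (j + 2 * r)) β) (Q j)

lemma gu_comm (hQ : IsCK H Y Q) (hπ : IsCK H X π) (j : ℕ) :
    C.comp (Q j) (gu C Q π r α) = C.comp (gu C Q π r α) (shf C π (j + 2 * r)) := by
  unfold gu
  rw [comp_sum, sum_comp]
  apply Finset.sum_congr rfl
  intro l _
  have h1 : C.comp (Q j) (C.comp (C.comp (Q l) α) (shf C π (l + 2 * r))) =
      C.comp (C.comp (C.comp (Q j) (Q l)) α) (shf C π (l + 2 * r)) := by
    simp only [comp_assoc]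
  have h2 : C.comp (C.comp (C.comp (Q l) α) (shf C π (l + 2 * r))) (shf C π (j + 2 * r)) =
      C.comp (C.comp (Q l) α) (C.comp (shf C π (l + 2 * r)) (shf C π (j + 2 * r))) := by
    simp only [comp_assoc]
  rw [h1, h2, hQ.comp_eq, shf_comp hπ]
  by_cases h : j = l
  · subst h
    rw [if_pos rfl, if_pos rfl]
  · rw [if_neg h, if_neg (by omega), zero_comp, zero_comp, comp_zero]

lemma gv_comm (hQ : IsCK H Y Q) (hπ : IsCK H X π) (j : ℕ) :
    C.comp (gv C Q π r β) (Q j) = C.comp (shf C π (j + 2 * r)) (gv C Q π r β) := by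
  unfold gv
  rw [comp_sum, sum_comp]
  apply Finset.sum_congr rfl
  intro l _
  have h1 : C.comp (C.comp (C.comp (shf C π (l + 2 * r)) β) (Q l)) (Q j) =
      C.comp (C.comp (shf C π (l + 2 * r)) β) (C.comp (Q l) (Q j)) := by
    simp only [comp_assoc]
  have h2 : C.comp (shf C π (j + 2 * r)) (C.comp (C.comp (shf C π (l + 2 * r)) β) (Q l)) =
      C.comp (C.comp (C.comp (shf C π (j + 2 * r)) (shf C π (l + 2 * r))) β) (Q l) := by
    simp only [comp_assoc]
  rw [h1, h2, hQ.comp_eq, shf_comp hπ]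
  by_cases h : j = l
  · subst h
    rw [if_pos rfl, if_pos rfl]
  · rw [if_neg (Ne.symm h), if_neg (by omega), zero_comp, zero_comp, comp_zero]

lemma gu_mem (hQ : IsCK H Y Q) (hπ : IsCK H X π) (hα : C.Deg (Y.dim + r) α) :
    gu C Q π r α ∈ C.gr (Y.prod X) (Y.dim + r) := by
  unfold gu
  apply Submodule.sum_mem
  intro j _
  have h1 : Q j ∈ C.gr (Y.prod Y) (Y.dim + 0) := by rw [add_zero]; exact hQ.deg j
  have h2 : shf C π (j + 2 * r) ∈ C.gr (X.prod X) (X.dim + 0) := by
    rw [add_zero]; exact shf_mem hπ _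
  have h3 := comp_mem C (comp_mem C h1 hα) h2
  have e1 : (Y.dim : ℤ) + (0 + r + 0) = Y.dim + r := by ring
  rwa [e1] at h3

lemma gv_mem (hQ : IsCK H Y Q) (hπ : IsCK H X π) (hβ : C.Deg (X.dim - r) β) :
    gv C Q π r β ∈ C.gr (X.prod Y) (X.dim + (-r)) := by
  unfold gv
  apply Submodule.sum_mem
  intro j _
  have h1 : Q j ∈ C.gr (Y.prod Y) (Y.dim + 0) := by rw [add_zero]; exact hQ.deg j
  have h2 : shf C π (j + 2 * r) ∈ C.gr (X.prod X) (X.dim + 0) := by
    rw [add_zero]; exact shf_mem hπ _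
  have hβ' : β ∈ C.gr (X.prod Y) (X.dim + (-r)) := by rw [← sub_eq_add_neg]; exact hβ
  have h3 := comp_mem C (comp_mem C h2 hβ') h1
  have e1 : (X.dim : ℤ) + (0 + -r + 0) = X.dim + (-r) := by ring
  rwa [e1] at h3

lemma act_gu (hQ : IsCK H Y Q) (hπ : IsCK H X π) (hα : C.Deg (Y.dim + r) α) {q : ℕ}
    (hq : q ≤ 2 * Y.dim) {a : H.A Y} (ha : a ∈ H.gr Y q) :
    H.act (H.cl (gu C Q π r α)) a = H.act (H.cl α) a := by
  unfold gu
  rw [actH_sum]
  have h1 : ∀ j : ℕ, H.act (H.cl (C.comp (C.comp (Q j) α) (shf C π (j + 2 * r)))) a =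
      if q = j then H.act (H.cl α) a else 0 := by
    intro j
    have h2 := actH_comp H (X := Y) (Y := X) (Z := X) (C.comp (Q j) α) (shf C π (j + 2 * r)) a
    have h3 := actH_comp H (X := Y) (Y := Y) (Z := X) (Q j) α a
    rw [h2, h3, hQ.actH_eq j q ha]
    by_cases h : q = j
    · subst h
      rw [if_pos rfl, if_pos rfl]
      have h4 := actH_mem H hα ha
      rw [shf_act hπ _ _ h4, if_pos rfl]
    · rw [if_neg (by exact_mod_cast h), if_neg h]
      have h5 : H.act (H.cl α) (0 : H.A Y) = 0 :=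
        TheoryData.act_map_zero (T := H.toTheoryData) _
      have h6 : H.act (H.cl (shf C π (j + 2 * r))) (0 : H.A X) = 0 :=
        TheoryData.act_map_zero (T := H.toTheoryData) _
      rw [h5, h6]
  simp only [h1]
  rw [Finset.sum_ite_eq, if_pos (Finset.mem_range.2 (by omega))]

lemma act_gv (hQ : IsCK H Y Q) (hπ : IsCK H X π) (hβ : C.Deg (X.dim - r) β) {q : ℕ}
    (hq : q ≤ 2 * Y.dim) {b : H.A X} (hb : b ∈ H.gr X (q + 2 * r)) :
    H.act (H.cl (gv C Q π r β)) b = H.act (H.cl β) b := by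
  unfold gv
  rw [actH_sum]
  have h1 : ∀ j : ℕ, H.act (H.cl (C.comp (C.comp (shf C π (j + 2 * r)) β) (Q j))) b =
      if q = j then H.act (H.cl β) b else 0 := by
    intro j
    have h2 := actH_comp H (X := X) (Y := Y) (Z := Y) (C.comp (shf C π (j + 2 * r)) β) (Q j) b
    have h3 := actH_comp H (X := X) (Y := X) (Z := Y) (shf C π (j + 2 * r)) β b
    rw [h2, h3, shf_act hπ _ _ hb]
    by_cases h : q = j
    · subst h
      rw [if_pos rfl, if_pos rfl]
      have hβ' : β ∈ C.gr (X.prod Y) (X.dim + (-r)) := by rw [← sub_eq_add_neg]; exact hβ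
      have h4 := actH_mem H hβ' hb
      have e1 : (q : ℤ) + 2 * r + 2 * -r = q := by ring
      rw [e1] at h4
      rw [hQ.actH_eq q q h4, if_pos rfl]
    · rw [if_neg (by omega), if_neg h]
      have h5 : H.act (H.cl β) (0 : H.A X) = 0 :=
        TheoryData.act_map_zero (T := H.toTheoryData) _
      have h6 : H.act (H.cl (Q j)) (0 : H.A Y) = 0 :=
        TheoryData.act_map_zero (T := H.toTheoryData) _
      rw [h5, h6]
  simp only [h1]
  rw [Finset.sum_ite_eq, if_pos (Finset.mem_range.2 (by omega))]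

/-- the composition acts as the identity on the cohomology -/
lemma act_guv (hQ : IsCK H Y Q) (hπ : IsCK H X π) (hα : C.Deg (Y.dim + r) α)
    (hβ : C.Deg (X.dim - r) β) (hαβ : C.comp α β = dg C Y) (a : H.A Y) :
    H.act (H.cl (C.comp (gu C Q π r α) (gv C Q π r β))) a = a := by
  have h0 : H.actL (H.cl (C.comp (gu C Q π r α) (gv C Q π r β))) = LinearMap.id := by
    apply ext_gr H
    intro m a ha
    by_cases ha0 : a = 0
    · rw [ha0, map_zero, map_zero]
    obtain ⟨q, rfl⟩ := Int.eq_ofNat_of_zero_le (nonneg_of_mem H ha ha0)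
    have hq : q ≤ 2 * Y.dim := by
      by_contra h
      have h2 := gr_top H (X := Y) (i := (q : ℤ)) (by omega)
      rw [h2] at ha
      exact ha0 ((Submodule.mem_bot _).1 ha)
    rw [TheoryData.actL_apply, LinearMap.id_apply]
    have h1 := actH_comp H (X := Y) (Y := X) (Z := Y) (gu C Q π r α) (gv C Q π r β) a
    rw [h1, act_gu r α hQ hπ hα hq ha]
    have h2 := actH_mem H hα ha
    rw [act_gv r β hQ hπ hβ hq h2]
    have h3 := actH_comp H (X := Y) (Y := X) (Z := Y) α β a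
    rw [← h3, hαβ]
    exact actH_dg H a
  have h1 := LinearMap.congr_fun h0 a
  rwa [TheoryData.actL_apply, LinearMap.id_apply] at h1

end graded

end Pool.Agent.T9h64.MC
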